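import Pool.Agent.helper43.DHB.SpecB

/-!
# d2:bCLB (MP_5823cb_al): clusters
-/

set_option autoImplicit false

open Filter Topology MeasureTheory
open scoped commutatorElement

namespace Pool.Agent.helper90.DH

open Pool.Agent.helper64.D2

theorem bCLB_sub (p : ℕ → ℝ) {a b : ℕ} (hab : a ≤ b) : p b - p a = ∑ c ∈ Finset.Ico a b, (p (c + 1) - p c) := by
  rw [Finset.sum_Ico_eq_sub _ hab, Finset.sum_range_sub, Finset.sum_range_sub]
  ring

theorem bCLB_one (k : ℕ) (p : ℕ → ℝ) (hp : Monotone p) (w a b : ℕ) (hC : Cln k p w) (hab : a ≤ b) (hb : b < k)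
    (he : clu p w a = clu p w b) : |p a - p b| ≤ 1 / (16 * 2 ^ w) := by
  have hsub : (Finset.range a).filter (fun c => 16 / 2 ^ w < p (c + 1) - p c) ⊆
      (Finset.range b).filter (fun c => 16 / 2 ^ w < p (c + 1) - p c) :=
    Finset.filter_subset_filter _ (Finset.range_mono hab)
  have heq := Finset.eq_of_subset_of_card_le hsub (le_of_eq he.symm)
  have hsmall : ∀ c ∈ Finset.Ico a b, p (c + 1) - p c ≤ 16 / 2 ^ w := by
    intro c hc
    rw [Finset.mem_Ico] at hc
    by_contra hlt
    push Not at hlt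
    have h1 : c ∈ (Finset.range b).filter (fun c => 16 / 2 ^ w < p (c + 1) - p c) := by
      rw [Finset.mem_filter, Finset.mem_range]
      exact ⟨hc.2, hlt⟩
    rw [← heq, Finset.mem_filter, Finset.mem_range] at h1
    omega
  have hnn : ∀ c, 0 ≤ p (c + 1) - p c := fun c => sub_nonneg.2 (hp (Nat.le_succ c))
  have h2 : p b - p a ≤ smg k p w := by
    rw [bCLB_sub p hab, smg]
    have h3 : ∑ c ∈ Finset.Ico a b, (p (c + 1) - p c) =
        ∑ c ∈ Finset.Ico a b, if p (c + 1) - p c ≤ 16 / 2 ^ w then p (c + 1) - p c else 0 := by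
      refine Finset.sum_congr rfl fun c hc => ?_
      rw [if_pos (hsmall c hc)]
    rw [h3]
    refine Finset.sum_le_sum_of_subset_of_nonneg ?_ ?_
    · intro c hc
      rw [Finset.mem_Ico] at hc
      rw [Finset.mem_range]
      omega
    · intro c _ _
      split_ifs
      · exact hnn c
      · exact le_rfl
  have h4 : 0 ≤ p b - p a := sub_nonneg.2 (hp hab)
  rw [abs_sub_comm, abs_of_nonneg h4]
  exact h2.trans hC

theorem bCLB_two (p : ℕ → ℝ) (hp : Monotone p) (w a b : ℕ) (hab : a ≤ b) (hne : clu p w a ≠ clu p w b) :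
    16 / 2 ^ w < |p a - p b| := by
  have hex : ∃ c, a ≤ c ∧ c < b ∧ 16 / 2 ^ w < p (c + 1) - p c := by
    by_contra hcon
    push Not at hcon
    apply hne
    unfold clu
    congr 1
    ext c
    rw [Finset.mem_filter, Finset.mem_filter, Finset.mem_range, Finset.mem_range]
    constructor
    · rintro ⟨h1, h2⟩
      exact ⟨lt_of_lt_of_le h1 hab, h2⟩
    · rintro ⟨h1, h2⟩
      refine ⟨?_, h2⟩
      by_contra h3
      exact absurd h2 (not_lt.2 (hcon c (not_lt.1 h3) h1))
  obtain ⟨c, h1, h2, h3⟩ := hex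
  have h4 : p a ≤ p c := hp h1
  have h5 : p (c + 1) ≤ p b := hp h2
  rw [abs_sub_comm]
  exact lt_of_lt_of_le (by linarith) (le_abs_self _)

/-- bCLB. -/
theorem bCLB : bCLB_stmt := by
  intro k p hp
  refine ⟨fun w a b hC ha hb he => ?_, fun w a b hne => ?_⟩
  · rcases le_total a b with h | h
    · exact bCLB_one k p hp w a b hC h hb he
    · rw [abs_sub_comm]
      exact bCLB_one k p hp w b a hC h ha he.symm
  · rcases le_total a b with h | h
    · exact bCLB_two p hp w a b h hne
    · rw [abs_sub_comm]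
      exact bCLB_two p hp w b a h hne.symm

end Pool.Agent.helper90.DH
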